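import Pool.Agent.H.MP_0f79e1_lc.A
set_option linter.style.longLine false
namespace Pool.Agent.Results.MP_0f79e1_lc.Yes
open Cardinal Pool.Agent.H.MP_0f79e1_lc

theorem result :
    (∀ (T : Type) [PartialOrder T] (ht : T → K ℵ₀), Kurepa ℵ₀ ht → Strong ht → DiamondPlus ℵ₀) ∧
    (((𝔠 : Cardinal.{0}) = ℵ₁ ∧ (∃ (T : Type) (_ : PartialOrder T) (ht : T → K ℵ₀), Kurepa ℵ₀ ht) ∧ ¬ DiamondPlus ℵ₀) →
      ((𝔠 : Cardinal.{0}) = ℵ₁ ∧ (∃ (T : Type) (_ : PartialOrder T) (ht : T → K ℵ₀), Kurepa ℵ₀ ht) ∧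
        ∀ (T : Type) [PartialOrder T] (ht : T → K ℵ₀), Kurepa ℵ₀ ht → ¬ Strong ht)) :=
  ⟨fun _ _ _ h s => strong_dp le_rfl h.1 s,
    fun h => ⟨h.1, h.2.1, fun _ _ _ k s => h.2.2 (strong_dp le_rfl k.1 s)⟩⟩

end Pool.Agent.Results.MP_0f79e1_lc.Yes
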